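import Pool.Agent.H948.SF.Stm
import Pool.Agent.H948.SF.Base

/-!
# Project SF: the events `Gev` depend on disjoint sets of cells
-/

namespace Pool.Agent.H23.SF

open Set Pool.Agent.H948.SF

variable {e : ℕ}

/-- The root of the delivery subtree containing a vertex of type at least two. -/
def zr (M : ℕ) : W e → W e
  | [] => []
  | a :: w => if st e M w = 1 then a :: w else zr M w

/-- The depth in the delivery subtree. -/
def lev (M : ℕ) : W e → ℕ
  | [] => 0
  | a :: w => if st e M w = 1 then 0 else lev M w + 1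

/-- The vertex `x` and the edge above it are used in the window `t`. -/
def InS (M τ : ℕ) (v : W e) (j : ℤ) (x : W e) (t : ℤ) : Prop :=
  2 ≤ st e M x ∧ zr M x = 0 :: par e j :: v ∧
    (j - ((lev M x / M : ℕ) : ℤ) - 1) * τ ≤ t ∧ t < (j - ((lev M x / M : ℕ) : ℤ) + 1) * τ

/-- The supporting sets. -/
def Su (M τ : ℕ) (v : W e) (j : ℤ) : Set (Lab (W e) × ℤ) :=
  {i | (i.1 = Sum.inr (par e j :: v) ∧ j * τ ≤ i.2 ∧ i.2 < (j + 2) * τ) ∨
    ∃ x, InS M τ v j x i.2 ∧ (i.1 = Sum.inr x ∨ i.1 = Sum.inl s(x, x.tail))}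

theorem st_par {M : ℕ} {v : W e} (hv : st e M v = 0) (j : ℤ) : st e M (par e j :: v) = 1 := by
  have h : (par e j).val ≤ 1 := by
    unfold par
    split_ifs <;> simp
  simp only [st, hv, h, if_true]

theorem st_z {M : ℕ} {v : W e} (hv : st e M v = 0) (j : ℤ) : st e M (0 :: par e j :: v) = 2 := by
  have h := st_par hv j
  simp only [st] at h ⊢
  rw [h]
  simp

theorem st_cons_le {M : ℕ} {v : W e} (hv : st e M v = 0) (a : Fin (e + 2)) :
    st e M (a :: v) ≤ 1 := by
  simp only [st, hv]
  split_ifs <;> simp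

theorem zr_z {M : ℕ} {v : W e} (hv : st e M v = 0) (j : ℤ) :
    zr M (0 :: par e j :: v) = 0 :: par e j :: v := by
  rw [zr, if_pos (st_par hv j)]

theorem lev_z {M : ℕ} {v : W e} (hv : st e M v = 0) (j : ℤ) :
    lev M (0 :: par e j :: v) = 0 := by
  rw [lev, if_pos (st_par hv j)]

/-- Types, roots and depths inside a block. -/
theorem block_aux {M : ℕ} (hM : 2 ≤ M) {c : W e} (hc : st e M c = 2) (u : W e)
    (hu : u.length + 1 ≤ M) :
    st e M (u ++ 0 :: c) = (if u.length + 1 = M then 2 else u.length + 3) ∧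
      zr M (u ++ 0 :: c) = zr M c ∧ lev M (u ++ 0 :: c) = lev M c + (u.length + 1) := by
  induction u with
  | nil =>
    refine ⟨?_, ?_, ?_⟩
    · simp only [List.nil_append, List.length_nil, st, hc]
      rw [if_pos trivial, if_neg (by omega)]
    · simp [zr, hc]
    · simp [lev, hc]
  | cons a u ih =>
    have hu' : u.length + 1 < M := by
      simp only [List.length_cons] at hu
      omega
    obtain ⟨h1, h2, h3⟩ := ih hu'.le
    rw [if_neg (by omega)] at h1
    refine ⟨?_, ?_, ?_⟩
    · simp only [List.cons_append, List.length_cons, st, h1]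
    · rw [List.cons_append, zr, if_neg (by omega), h2]
    · rw [List.cons_append, lev, if_neg (by omega), h3, List.length_cons]
      ring

theorem block {M : ℕ} (hM : 2 ≤ M) {c : W e} (hc : st e M c = 2) {q : W e}
    (hq : q ∈ Bset e M) :
    2 ≤ st e M (q ++ c) ∧ zr M (q ++ c) = zr M c ∧ lev M (q ++ c) = lev M c + q.length ∧
      q.length ≤ M := by
  rcases hq with rfl | ⟨⟨u, rfl⟩, hl⟩
  · simp [hc]
  · have hl' : u.length + 1 ≤ M := by simpa using hl
    obtain ⟨h1, h2, h3⟩ := block_aux hM hc u hl'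
    have h4 : u ++ [0] ++ c = u ++ 0 :: c := by simp
    rw [h4, h1, h2, h3]
    refine ⟨?_, rfl, by simp, by simpa using hl⟩
    split_ifs <;> omega

theorem block_last {M : ℕ} (hM : 2 ≤ M) {c : W e} (hc : st e M c = 2) {w : W e}
    (hw : w ∈ Lset e M) :
    st e M (w ++ c) = 2 ∧ zr M (w ++ c) = zr M c ∧ lev M (w ++ c) = lev M c + M := by
  obtain ⟨⟨u, rfl⟩, hl⟩ := hw
  have hl' : u.length + 1 = M := by simpa using hl
  obtain ⟨h1, h2, h3⟩ := block_aux hM hc u hl'.le
  have h4 : u ++ [0] ++ c = u ++ 0 :: c := by simp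
  rw [h4, h1, h2, h3, if_pos hl', hl']
  exact ⟨rfl, rfl, rfl⟩

theorem Lset_sub {M : ℕ} : Lset e M ⊆ Bset e M := by
  rintro w ⟨h1, h2⟩
  exact Or.inr ⟨h1, h2.le⟩

/-- The used vertices of a block lie in the support. -/
theorem inS_block {M τ : ℕ} (hM : 2 ≤ M) {v : W e} {j k : ℤ} {c : W e} {n : ℕ}
    (hc : st e M c = 2) (hz : zr M c = 0 :: par e j :: v) (hl : lev M c = n * M)
    (hk : k = j - n) {q : W e} (hq : q ∈ Bset e M) {t : ℤ} (h1 : (k - 1) * τ ≤ t)
    (h2 : t < k * τ) : InS M τ v j (q ++ c) t := by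
  obtain ⟨hb1, hb2, hb3, hb4⟩ := block hM hc hq
  refine ⟨hb1, hb2.trans hz, ?_⟩
  have hτ : (0 : ℤ) ≤ τ := by positivity
  rw [hb3, hl]
  rcases hb4.lt_or_eq with h | h
  · have : (n * M + q.length) / M = n := by
      rw [mul_comm, Nat.mul_add_div (by omega), Nat.div_eq_of_lt h, add_zero]
    rw [this, ← hk]
    exact ⟨h1, h2.trans_le (mul_le_mul_of_nonneg_right (by omega) hτ)⟩
  · have : (n * M + q.length) / M = n + 1 := by
      rw [h, ← Nat.succ_mul, Nat.mul_div_cancel _ (by omega)]
    rw [this]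
    push_cast
    have e1 : j - ((n : ℤ) + 1) = k - 1 := by rw [hk]; ring
    rw [e1]
    refine ⟨le_trans (mul_le_mul_of_nonneg_right (by omega) hτ) h1, ?_⟩
    simpa using h2

theorem blk_congr {M τ : ℕ} (hM : 2 ≤ M) {v : W e} {j k : ℤ} {c : W e} {n : ℕ}
    (hc : st e M c = 2) (hz : zr M c = 0 :: par e j :: v) (hl : lev M c = n * M)
    (hk : k = j - n) {w : W e} (hw : w ∈ Bset e M) {ω ω' : Env (Lab (W e))}
    (h : ∀ i ∈ Su M τ v j, ω i = ω' i) : Blk e M τ ω c k w ↔ Blk e M τ ω' c k w := by
  unfold Blk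
  refine Con_congr ?_
  rintro ⟨i, t⟩ ⟨h1, h2, h3⟩
  apply h
  rcases h3 with ⟨x, y, hxy, hi⟩ | ⟨x, hx, hi⟩
  · obtain ⟨hadj, ⟨q, hq, rfl⟩, ⟨q', hq', rfl⟩⟩ := hxy
    simp only at hi h1 h2 hadj
    rcases hadj with ⟨a, ha⟩ | ⟨a, ha⟩
    · refine Or.inr ⟨q ++ c, inS_block hM hc hz hl hk hq h1 h2, Or.inr ?_⟩
      simp only [hi, ha, List.tail_cons]
    · refine Or.inr ⟨q' ++ c, inS_block hM hc hz hl hk hq' h1 h2, Or.inr ?_⟩
      simp only [hi, ha, List.tail_cons]
      rw [Sym2.eq_swap]
  · have hx' : ∃ q ∈ Bset e M, q ++ c = x := by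
      rcases hx with rfl | ⟨y, hy⟩
      · exact ⟨w, hw, rfl⟩
      · obtain ⟨q, hq, hqx⟩ := hy.2.1
        exact ⟨q, hq, hqx⟩
    obtain ⟨q, hq, rfl⟩ := hx'
    exact Or.inr ⟨q ++ c, inS_block hM hc hz hl hk hq h1 h2, Or.inl hi⟩

theorem sv_congr {M τ : ℕ} (hM : 2 ≤ M) {v : W e} {j : ℤ} {ω ω' : Env (Lab (W e))}
    (h : ∀ i ∈ Su M τ v j, ω i = ω' i) : ∀ (i n : ℕ) (k : ℤ) (c : W e), st e M c = 2 →
      zr M c = 0 :: par e j :: v → lev M c = n * M → k = j - n →
      (Sv e M τ ω i c k ↔ Sv e M τ ω' i c k)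
  | 0, _, _, _, _, _, _, _ => Iff.rfl
  | i + 1, n, k, c, hc, hz, hl, hk => by
    have hrec : ∀ w ∈ Lset e M, (Sv e M τ ω i (w ++ c) (k - 1) ↔
        Sv e M τ ω' i (w ++ c) (k - 1)) := by
      intro w hw
      obtain ⟨h1, h2, h3⟩ := block_last hM hc hw
      refine sv_congr hM h i (n + 1) (k - 1) (w ++ c) h1 (h2.trans hz) ?_ ?_
      · rw [h3, hl]; ring
      · rw [hk]; push_cast; ring
    constructor
    · rintro ⟨w, hw, h1, h2⟩
      exact ⟨w, hw, (blk_congr hM hc hz hl hk (Lset_sub hw) h).1 h1, (hrec w hw).1 h2⟩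
    · rintro ⟨w, hw, h1, h2⟩
      exact ⟨w, hw, (blk_congr hM hc hz hl hk (Lset_sub hw) h).2 h1, (hrec w hw).2 h2⟩

theorem par_eq {j j' : ℤ} (h : par e j = par e j') : j % 2 = j' % 2 := by
  unfold par at h
  split_ifs at h with h1 h2 h2
  · omega
  · exfalso
    simp [Fin.ext_iff] at h
  · exfalso
    simp [Fin.ext_iff] at h
  · omega

theorem win_disj {τ : ℕ} {j j' L t : ℤ} (hne : j ≠ j') (hp : j % 2 = j' % 2)
    (h1 : (j - L - 1) * τ ≤ t) (h2 : t < (j - L + 1) * τ) (h1' : (j' - L - 1) * τ ≤ t)
    (h2' : t < (j' - L + 1) * τ) : False := by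
  have hτ : (0 : ℤ) ≤ τ := by positivity
  rcases lt_or_gt_of_ne hne with h | h
  · have h3 : j - L + 1 ≤ j' - L - 1 := by omega
    have := mul_le_mul_of_nonneg_right h3 hτ
    omega
  · have h3 : j' - L + 1 ≤ j - L - 1 := by omega
    have := mul_le_mul_of_nonneg_right h3 hτ
    omega

theorem inS_disj {M τ : ℕ} {v v' : W e} {j j' : ℤ} (hne : (v, j) ≠ (v', j')) {x : W e} {t : ℤ}
    (h : InS M τ v j x t) (h' : InS M τ v' j' x t) : False := by
  have h1 := h.2.1.symm.trans h'.2.1
  simp only [List.cons.injEq, true_and] at h1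
  obtain ⟨h2, h3⟩ := h1
  subst h3
  have hj : j ≠ j' := fun hj => hne (by rw [hj])
  exact win_disj hj (par_eq h2) h.2.2.1 h.2.2.2 h'.2.2.1 h'.2.2.2

theorem edge_eq {x x' : W e} (hx : x ≠ []) (hx' : x' ≠ []) (h : s(x, x.tail) = s(x', x'.tail)) :
    x = x' := by
  rcases Sym2.eq_iff.1 h with h | h
  · exact h.1
  · exfalso
    have h1 := congrArg List.length h.1
    have h2 := congrArg List.length h.2
    have h3 := List.length_pos_iff.2 hx
    have h4 := List.length_pos_iff.2 hx'
    simp only [List.length_tail] at h1 h2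
    omega

theorem ne_nil_of_st {M : ℕ} {x : W e} (h : 2 ≤ st e M x) : x ≠ [] := by
  rintro rfl
  simp [st] at h

theorem s_geo : S_GEO := by
  intro e M τ hM hτ
  have hτ' : (1 : ℤ) ≤ τ := by exact_mod_cast hτ
  refine ⟨Su M τ, ?_, ?_, ?_, ?_⟩
  · intro v v' j j' hv hv' hne
    rw [Set.disjoint_left]
    rintro ⟨i, t⟩ h h'
    simp only [Su, Set.mem_setOf_eq] at h h'
    rcases h with ⟨h1, h2, h3⟩ | ⟨x, hx, hi⟩ <;> rcases h' with ⟨h1', h2', h3'⟩ | ⟨x', hx', hi'⟩
    · rw [h1] at h1'
      simp only [Sum.inr.injEq, List.cons.injEq] at h1'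
      obtain ⟨h4, h5⟩ := h1'
      subst h5
      have hj : j ≠ j' := fun hj => hne (by rw [hj])
      refine win_disj (L := -1) hj (par_eq h4) (t := t) (τ := τ) ?_ ?_ ?_ ?_
      · ring_nf; ring_nf at h2; exact h2
      · ring_nf; ring_nf at h3; exact h3
      · ring_nf; ring_nf at h2'; exact h2'
      · ring_nf; ring_nf at h3'; exact h3'
    · rcases hi' with hi' | hi'
      · rw [h1] at hi'
        simp only [Sum.inr.injEq] at hi'
        have h4 := hx'.1
        rw [← hi', st_par hv] at h4
        omega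
      · rw [h1] at hi'
        exact absurd hi' (by simp)
    · rcases hi with hi | hi
      · rw [h1'] at hi
        simp only [Sum.inr.injEq] at hi
        have h4 := hx.1
        rw [← hi, st_par hv'] at h4
        omega
      · rw [h1'] at hi
        exact absurd hi (by simp)
    · have hxx : x = x' := by
        rcases hi with hi | hi <;> rcases hi' with hi' | hi'
        · rw [hi] at hi'
          simpa using hi'
        · rw [hi] at hi'
          exact absurd hi' (by simp)
        · rw [hi] at hi'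
          exact absurd hi' (by simp)
        · rw [hi] at hi'
          exact edge_eq (ne_nil_of_st hx.1) (ne_nil_of_st hx'.1) (Sum.inl_injective hi')
      subst hxx
      exact inS_disj hne hx hx'
  · intro v j hv ω ω' h
    have hz0 := lev_z (M := M) hv j
    have hzS : ∀ t : ℤ, (j - 1) * τ ≤ t → t < (j + 1) * τ →
        InS M τ v j (0 :: par e j :: v) t := by
      intro t h1 h2
      refine ⟨by rw [st_z hv], zr_z hv j, ?_, ?_⟩
      · rw [hz0]; simpa using h1
      · rw [hz0]; simpa using h2
    have hzw : ∀ t : ℤ, j * τ ≤ t → t < j * τ + 1 → InS M τ v j (0 :: par e j :: v) t := by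
      intro t h1 h2
      apply hzS t
      · nlinarith
      · nlinarith
    unfold Gev
    refine and_congr ?_ (and_congr ?_ ?_)
    · refine forall_congr' fun i => ?_
      exact sv_congr hM h i 0 j _ (st_z hv j) (zr_z hv j) (by rw [hz0]; simp) (by simp)
    · refine Con_congr ?_
      rintro ⟨i, t⟩ ⟨h1, h2, h3⟩
      apply h
      simp only at h1 h2
      rcases h3 with ⟨x, y, hxy, hi⟩ | ⟨x, hx, hi⟩
      · obtain ⟨hadj, hx, hy⟩ := hxy
        simp only at hi
        rcases hadj with ⟨a, ha⟩ | ⟨a, ha⟩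
        · have hx' : x = 0 :: par e j :: v := by
            rcases hx with hx | hx
            · exact hx
            · exfalso
              rcases hy with hy | hy
              · have := congrArg List.length ha
                rw [hx, hy] at this
                simp at this
              · have := congrArg List.length ha
                rw [hx, Set.mem_singleton_iff.1 hy] at this
                simp at this
          refine Or.inr ⟨x, ?_, Or.inr ?_⟩
          · rw [hx']; exact hzw t h1 h2
          · rw [hi, ha]; rfl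
        · have hy' : y = 0 :: par e j :: v := by
            rcases hy with hy | hy
            · exact hy
            · exfalso
              rcases hx with hx | hx
              · have := congrArg List.length ha
                rw [hx, hy] at this
                simp at this
              · have := congrArg List.length ha
                rw [Set.mem_singleton_iff.1 hx, Set.mem_singleton_iff.1 hy] at this
                simp at this
          refine Or.inr ⟨y, ?_, Or.inr ?_⟩
          · rw [hy']; exact hzw t h1 h2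
          · rw [hi, ha, Sym2.eq_swap]; rfl
      · have hx' : x = 0 :: par e j :: v ∨ x = par e j :: v := by
          rcases hx with rfl | ⟨y, hy⟩
          · exact Or.inl rfl
          · rcases hy.2.1 with h4 | h4
            · exact Or.inl h4
            · exact Or.inr h4
        simp only at hi
        rcases hx' with rfl | rfl
        · exact Or.inr ⟨_, hzw t h1 h2, Or.inl hi⟩
        · refine Or.inl ⟨hi, h1, ?_⟩
          show t < (j + 2) * τ
          nlinarith
    · have hm : ∀ m : ℤ, j * τ + 1 ≤ m → m < (j + 1) * τ + 1 →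
          ω (Sum.inr (par e j :: v), m) = ω' (Sum.inr (par e j :: v), m) := by
        intro m h1 h2
        apply h
        refine Or.inl ⟨rfl, ?_, ?_⟩
        · show j * τ ≤ m
          omega
        · show m < (j + 2) * τ
          nlinarith
      constructor
      · intro h1 r hr hr2
        refine h1 r ?_ hr2
        refine marks_congr (k := j * τ + 1) (l := (j + 1) * τ + 1)
          (fun m h2 h3 => (hm m h2 h3).symm) ?_ ?_ hr
        · push_cast; exact hr2.1
        · push_cast; exact hr2.2
      · intro h1 r hr hr2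
        refine h1 r ?_ hr2
        refine marks_congr (k := j * τ + 1) (l := (j + 1) * τ + 1) hm ?_ ?_ hr
        · push_cast; exact hr2.1
        · push_cast; exact hr2.2
  · intro v j u t hv hu h
    rcases h with ⟨h1, _⟩ | ⟨x, hx, hi⟩
    · simp only [Sum.inr.injEq] at h1
      rw [h1, st_par hv] at hu
      omega
    · rcases hi with hi | hi
      · simp only [Sum.inr.injEq] at hi
        have := hx.1
        rw [← hi, hu] at this
        omega
      · exact absurd hi (by simp)
  · intro v j u a t hv hu h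
    rcases h with ⟨h1, _⟩ | ⟨x, hx, hi⟩
    · exact absurd h1 (by simp)
    · rcases hi with hi | hi
      · exact absurd hi (by simp)
      · have h1 : a :: u = x :=
          edge_eq (List.cons_ne_nil _ _) (ne_nil_of_st hx.1) (by
            simpa using Sum.inl_injective hi)
        have h2 := hx.1
        rw [← h1] at h2
        have := st_cons_le hu a
        omega

end Pool.Agent.H23.SF
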