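import Pool.Agent.H948.SF.Stm

/-!
# Project SF: embeddings of the rooted tree into a homogeneous tree
-/

namespace Pool.Agent.H23.SF

open Set Pool.Agent.H948.SF

variable {V : Type} {G : SimpleGraph V} {e : ℕ}

/-- In a tree, a vertex has at most one neighbour nearer to `p`. -/
theorem parent_unique (hG : G.IsTree) (p : V) {x y z : V} (hy : G.Adj x y) (hz : G.Adj x z)
    (dy : G.dist p x = G.dist p y + 1) (dz : G.dist p x = G.dist p z + 1) : y = z := by
  classical
  obtain ⟨P, hP, hPl⟩ := (hG.connected p x).exists_path_of_dist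
  have key : ∀ y, G.Adj x y → G.dist p x = G.dist p y + 1 → y = P.penultimate := by
    intro y hy dy
    obtain ⟨Q, hQ, hQl⟩ := (hG.connected p y).exists_path_of_dist
    have hx : x ∉ Q.support := by
      intro hx
      have h1 := SimpleGraph.dist_le (Q.takeUntil x hx)
      have h2 := Q.length_takeUntil_le_length hx
      omega
    exact hG.isAcyclic.eq_penultimate_of_adj_end hP hy
      (hG.isAcyclic.mem_support_of_ne_mem_support_of_adj_of_isPath hP hQ hy hx)
  rw [key y hy dy, key z hz dz]

/-- Numbering of the neighbours of `x` other than `x'`, with one value prescribed. -/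
theorem exists_children (hd : ∀ x, (G.neighborSet x).encard = (e : ℕ∞) + 3) (x' x : V)
    (i : Fin (e + 2)) (y : V) :
    ∃ g : Fin (e + 2) → V, G.Adj x x' → Function.Injective g ∧
      (∀ v, (∃ a, g a = v) ↔ G.Adj x v ∧ v ≠ x') ∧ (G.Adj x y → y ≠ x' → g i = y) := by
  classical
  by_cases h : G.Adj x x'
  swap
  · exact ⟨fun _ => x, fun h' => absurd h' h⟩
  set S : Set V := G.neighborSet x \ {x'} with hS
  have hmem : x' ∈ G.neighborSet x := h
  have hc : S.encard = ((e + 2 : ℕ) : ℕ∞) := by
    have h1 := Set.encard_sdiff_singleton_add_one hmem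
    rw [hd x, ← hS] at h1
    have h2 : S.encard ≠ ⊤ := by
      intro h2
      rw [h2] at h1
      simp at h1
      exact absurd h1.symm (by simp)
    lift S.encard to ℕ using h2 with k hk
    have h3 : k + 1 = e + 3 := by exact_mod_cast h1
    have h4 : k = e + 2 := by omega
    rw [h4]
  have hn : Nat.card S = e + 2 := by
    have h3 : S.ncard = e + 2 := by rw [Set.ncard, hc]; rfl
    rwa [← Nat.card_coe_set_eq] at h3
  have hfin : Finite S := Nat.finite_of_card_ne_zero (by omega)
  let E : S ≃ Fin (e + 2) := Finite.equivFinOfCardEq hn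
  have hr : ∀ v, (∃ a, ((E.symm a : S) : V) = v) ↔ G.Adj x v ∧ v ≠ x' := by
    intro v
    constructor
    · rintro ⟨a, rfl⟩
      exact (E.symm a).2
    · intro hv
      exact ⟨E ⟨v, hv⟩, by simp⟩
  by_cases hy : G.Adj x y ∧ y ≠ x'
  · refine ⟨fun a => ((E.symm (Equiv.swap i (E ⟨y, hy⟩) a) : S) : V), fun _ => ⟨?_, ?_, ?_⟩⟩
    · intro a b hab
      have := E.symm.injective (Subtype.ext hab)
      exact (Equiv.swap i (E ⟨y, hy⟩)).injective this
    · intro v
      rw [← hr v]
      constructor
      · rintro ⟨a, ha⟩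
        exact ⟨_, ha⟩
      · rintro ⟨a, ha⟩
        refine ⟨Equiv.swap i (E ⟨y, hy⟩) a, ?_⟩
        simpa using ha
    · intro _ _
      simp
  · refine ⟨fun a => ((E.symm a : S) : V), fun _ => ⟨?_, hr, fun h1 h2 => absurd ⟨h1, h2⟩ hy⟩⟩
    intro a b hab
    exact E.symm.injective (Subtype.ext hab)

/-- The recursion: pairs (parent, vertex). -/
noncomputable def FF (c : V → V → Fin (e + 2) → V → Fin (e + 2) → V) (p r : V)
    (s : ℕ → Fin (e + 2) × V) : W e → V × V
  | [] => (p, r)
  | a :: u => ((FF c p r s u).2,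
      c (FF c p r s u).1 (FF c p r s u).2 (s u.length).1 (s u.length).2 a)

/-- The property of `c`. -/
def Good (G : SimpleGraph V) (c : V → V → Fin (e + 2) → V → Fin (e + 2) → V) : Prop :=
  ∀ x' x i y, G.Adj x x' → Function.Injective (c x' x i y) ∧
      (∀ v, (∃ a, c x' x i y a = v) ↔ G.Adj x v ∧ v ≠ x') ∧ (G.Adj x y → y ≠ x' → c x' x i y i = y)

theorem exists_good (hd : ∀ x, (G.neighborSet x).encard = (e : ℕ∞) + 3) :
    ∃ c : V → V → Fin (e + 2) → V → Fin (e + 2) → V, Good G c := by
  choose c hc using exists_children (G := G) hd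
  exact ⟨c, hc⟩

section

variable {c : V → V → Fin (e + 2) → V → Fin (e + 2) → V} {p r : V}
    {s : ℕ → Fin (e + 2) × V}

theorem FF_adj (hc : Good G c) (h : G.Adj r p) (u : W e) :
    G.Adj (FF c p r s u).2 (FF c p r s u).1 := by
  induction u with
  | nil => exact h
  | cons a u ih =>
    have h1 := (hc (FF c p r s u).1 (FF c p r s u).2 (s u.length).1 (s u.length).2 ih).2.1
      (FF c p r s (a :: u)).2
    exact (h1.1 ⟨a, rfl⟩).1.symm

theorem FF_mem (hc : Good G c) (h : G.Adj r p) (u : W e) (v : V) :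
    (∃ a, (FF c p r s (a :: u)).2 = v) ↔ G.Adj (FF c p r s u).2 v ∧ v ≠ (FF c p r s u).1 :=
  (hc _ _ _ _ (FF_adj hc h u)).2.1 v

theorem FF_inj' (hc : Good G c) (h : G.Adj r p) (u : W e) {a b : Fin (e + 2)}
    (hab : (FF c p r s (a :: u)).2 = (FF c p r s (b :: u)).2) : a = b :=
  (hc _ _ _ _ (FF_adj hc h u)).1 hab

theorem FF_dist (hG : G.IsTree) (hc : Good G c) (h : G.Adj r p) (u : W e) :
    G.dist p (FF c p r s u).2 = u.length + 1 ∧ G.dist p (FF c p r s u).1 = u.length := by
  induction u with
  | nil =>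
    refine ⟨?_, ?_⟩
    · simp [FF, SimpleGraph.dist_eq_one_iff_adj, h.symm]
    · simp [FF]
  | cons a u ih =>
    obtain ⟨h1, h2⟩ := ih
    have h3 := (FF_mem (s := s) hc h u (FF c p r s (a :: u)).2).1 ⟨a, rfl⟩
    refine ⟨?_, by
      show G.dist p (FF c p r s u).2 = _
      rw [h1]; simp⟩
    rcases hG.dist_eq_dist_add_one_of_adj p h3.1 with h4 | h4
    · exfalso
      refine h3.2 (parent_unique hG p h3.1 (FF_adj hc h u) h4 ?_)
      rw [h1, h2]
    · rw [h4, h1]
      simp

theorem FF_inj (hG : G.IsTree) (hc : Good G c) (h : G.Adj r p) (u v : W e)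
    (huv : (FF c p r s u).2 = (FF c p r s v).2) : u = v := by
  induction u generalizing v with
  | nil =>
    have h1 := (FF_dist (s := s) hG hc h []).1
    have h2 := (FF_dist (s := s) hG hc h v).1
    rw [huv, h2] at h1
    simp at h1
    exact h1.symm
  | cons a u ih =>
    have h1 := (FF_dist (s := s) hG hc h (a :: u)).1
    have h2 := (FF_dist (s := s) hG hc h v).1
    have hlen : v.length = (a :: u).length := by rw [huv, h2] at h1; omega
    match v, hlen with
    | [], hl => simp at hl
    | b :: v, hl =>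
      have h3 := FF_adj (s := s) hc h (a :: u)
      have h4 := FF_adj (s := s) hc h (b :: v)
      rw [← huv] at h4
      have h5 : (FF c p r s (a :: u)).1 = (FF c p r s (b :: v)).1 := by
        refine parent_unique hG p h3 h4 ?_ ?_
        · rw [(FF_dist (s := s) hG hc h (a :: u)).1, (FF_dist (s := s) hG hc h (a :: u)).2]
        · rw [(FF_dist (s := s) hG hc h (a :: u)).1, (FF_dist (s := s) hG hc h (b :: v)).2, hl]
      have h6 : u = v := ih v h5
      subst h6
      rw [FF_inj' hc h u huv]

theorem FF_adj_iff (hG : G.IsTree) (hc : Good G c) (h : G.Adj r p) (u v : W e) :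
    (TW e).Adj u v ↔ G.Adj (FF c p r s u).2 (FF c p r s v).2 := by
  have step : ∀ u v : W e, G.Adj (FF c p r s u).2 (FF c p r s v).2 →
      u.length = v.length + 1 → ∃ a, u = a :: v := by
    intro u v huv hl
    match u, hl with
    | [], hl => simp at hl
    | a :: u, hl =>
      refine ⟨a, ?_⟩
      have h1 : (FF c p r s v).2 = (FF c p r s (a :: u)).1 := by
        refine parent_unique hG p huv (FF_adj hc h (a :: u)) ?_ ?_
        · rw [(FF_dist (s := s) hG hc h (a :: u)).1, (FF_dist (s := s) hG hc h v).1, hl]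
        · rw [(FF_dist (s := s) hG hc h (a :: u)).1, (FF_dist (s := s) hG hc h (a :: u)).2]
      rw [FF_inj hG hc h v u h1]
  constructor
  · rintro (⟨a, rfl⟩ | ⟨a, rfl⟩)
    · exact FF_adj hc h (a :: v)
    · exact (FF_adj hc h (a :: u)).symm
  · intro huv
    rcases hG.dist_eq_dist_add_one_of_adj p huv with h1 | h1
    · rw [(FF_dist (s := s) hG hc h u).1, (FF_dist (s := s) hG hc h v).1] at h1
      exact Or.inl (step u v huv (by omega))
    · rw [(FF_dist (s := s) hG hc h u).1, (FF_dist (s := s) hG hc h v).1] at h1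
      exact Or.inr (step v u huv.symm (by omega))

theorem FF_closed (hc : Good G c) (h : G.Adj r p) (u : W e) (x : V)
    (hx : G.Adj (FF c p r s u).2 x) : x = (FF c p r s u).1 ∨ ∃ a, (FF c p r s (a :: u)).2 = x := by
  by_cases h1 : x = (FF c p r s u).1
  · exact Or.inl h1
  · exact Or.inr ((FF_mem hc h u x).2 ⟨hx, h1⟩)

end

/-- A non-backtracking sequence. -/
noncomputable def zz (c : V → V → Fin (e + 2) → V → Fin (e + 2) → V) (o o' : V) : ℕ → V × V
  | 0 => (o, o')
  | n + 1 => ((zz c o o' n).2, c (zz c o o' n).1 (zz c o o' n).2 0 o 0)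

theorem zz_adj {c : V → V → Fin (e + 2) → V → Fin (e + 2) → V} (hc : Good G c) {o o' : V}
    (h : G.Adj o' o) (n : ℕ) : G.Adj (zz c o o' n).2 (zz c o o' n).1 := by
  induction n with
  | zero => exact h
  | succ n ih =>
    have h1 := ((hc (zz c o o' n).1 (zz c o o' n).2 0 o ih).2.1 (zz c o o' (n + 1)).2).1 ⟨0, rfl⟩
    exact h1.1.symm

theorem zz_ne {c : V → V → Fin (e + 2) → V → Fin (e + 2) → V} (hc : Good G c) {o o' : V}
    (h : G.Adj o' o) (n : ℕ) : (zz c o o' (n + 1)).2 ≠ (zz c o o' n).1 :=
  (((hc (zz c o o' n).1 (zz c o o' n).2 0 o (zz_adj hc h n)).2.1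
    (zz c o o' (n + 1)).2).1 ⟨0, rfl⟩).2

theorem exists_nbr (hd : ∀ x, (G.neighborSet x).encard = (e : ℕ∞) + 3) (x : V) :
    ∃ y, G.Adj x y := by
  have h : (G.neighborSet x).Nonempty := by
    rw [← Set.encard_ne_zero, hd x]
    intro h
    simp at h
  exact h

theorem s_tree : S_TREE := by
  intro e V G hG hd
  obtain ⟨c, hc⟩ := exists_good (G := G) hd
  refine ⟨?_, ?_⟩
  · -- countability
    obtain ⟨o⟩ := hG.connected.nonempty
    obtain ⟨o', ho⟩ := exists_nbr hd o
    let s : ℕ → Fin (e + 2) × V := fun _ => (0, o)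
    let S : Set V := range (fun u => (FF c o o' s u).2) ∪ range (fun u => (FF c o' o s u).2)
    have hcl : ∀ x ∈ S, ∀ y, G.Adj x y → y ∈ S := by
      rintro x (⟨u, rfl⟩ | ⟨u, rfl⟩) y hxy
      · rcases FF_closed hc ho.symm u y hxy with h | ⟨a, h⟩
        · match u with
          | [] => exact Or.inr ⟨[], h.symm⟩
          | a :: u => exact Or.inl ⟨u, h.symm⟩
        · exact Or.inl ⟨a :: u, h⟩
      · rcases FF_closed hc ho u y hxy with h | ⟨a, h⟩
        · match u with
          | [] => exact Or.inl ⟨[], h.symm⟩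
          | a :: u => exact Or.inr ⟨u, h.symm⟩
        · exact Or.inr ⟨a :: u, h⟩
    have hall : ∀ x y, G.Walk x y → x ∈ S → y ∈ S := by
      intro x y q
      induction q with
      | nil => exact id
      | cons hadj _ ih => exact fun hx => ih (hcl _ hx _ hadj)
    have huniv : S = univ := by
      ext y
      simp only [mem_univ, iff_true]
      obtain ⟨q⟩ := hG.connected o y
      exact hall o y q (Or.inr ⟨[], rfl⟩)
    have hcount : S.Countable := (countable_range _).union (countable_range _)
    rw [huniv] at hcount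
    exact countable_univ_iff.1 hcount
  · intro o w
    obtain ⟨o', ho⟩ := exists_nbr hd o
    set n := w.length with hn
    have hz := zz_adj hc ho.symm (o := o) (o' := o')
    let s : ℕ → Fin (e + 2) × V := fun k => (w.getD (n - 1 - k) 0, (zz c o o' (n - 1 - k)).1)
    let p := (zz c o o' n).2
    let r := (zz c o o' n).1
    have hrp : G.Adj r p := (hz n).symm
    have hz1 : ∀ k, (zz c o o' k).2 = (zz c o o' (k + 1)).1 := fun _ => rfl
    have key : ∀ k, k ≤ n → FF c p r s (w.drop (n - k)) =
        ((zz c o o' (n - k)).2, (zz c o o' (n - k)).1) := by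
      intro k
      induction k with
      | zero =>
        intro _
        simp [hn, FF, p, r]
      | succ k ih =>
        intro hk
        have ih := ih (by omega)
        have hlt : n - (k + 1) < w.length := by omega
        have e1 : n - (k + 1) + 1 = n - k := by omega
        have e2 : n - 1 - k = n - (k + 1) := by omega
        rw [List.drop_eq_getElem_cons hlt, e1]
        have hl : (w.drop (n - k)).length = k := by simp; omega
        have hs1 : (s k).1 = w[n - (k + 1)] := by
          simp only [s, e2]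
          rw [List.getD_eq_getElem _ _ hlt]
        have hs2 : (s k).2 = (zz c o o' (n - (k + 1))).1 := by
          simp only [s, e2]
        simp only [FF, ih, hl]
        rw [hs1, hs2]
        have hz2 : (zz c o o' (n - (k + 1))).2 = (zz c o o' (n - k)).1 := by
          rw [hz1, e1]
        have h1 := (hc (zz c o o' (n - k)).2 (zz c o o' (n - k)).1 w[n - (k + 1)]
          (zz c o o' (n - (k + 1))).1 (hz (n - k)).symm).2.2 (by
            rw [← hz2]; exact hz (n - (k + 1))) (by
            have h2 := zz_ne hc ho.symm (o := o) (o' := o') (n - (k + 1))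
            rw [e1] at h2
            exact h2.symm)
        rw [h1, hz2]
    refine ⟨fun u => (FF c p r s u).2, fun u v huv => FF_inj hG hc hrp u v huv,
      fun u v => FF_adj_iff hG hc hrp u v, ?_, ?_⟩
    · intro u hu x hx
      rcases FF_closed hc hrp u x hx with h | ⟨a, h⟩
      · match u, hu with
        | a :: u, _ => exact ⟨u, h.symm⟩
      · exact ⟨a :: u, h⟩
    · have h1 := key n le_rfl
      simp only [Nat.sub_self, List.drop_zero] at h1
      show (FF c p r s w).2 = o
      rw [h1]
      rfl

end Pool.Agent.H23.SF
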